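import Pool.Agent.Helper50K9.Drn.Root

/-!
# `NL_sym`, `NL_two`, `NL_double` from the library; only `Lib_HP` remains a hypothesis
-/

set_option autoImplicit false

namespace Pool.Agent.Helper50K9.Drn

open Pool.Agent.Helper13K9.Drn

theorem nl_sym' (hroot : Lib_root) : NL_sym := nl_sym ui_iff uni hroot

theorem nl_two' (hHP : Lib_HP) (hroot : Lib_root) : NL_two := nl_two ui_iff hHP hroot

theorem nl_double' (hroot : Lib_root) : NL_double := nl_double uni bi uni_bi hroot attach

theorem nl_sym_HP (hHP : Lib_HP) : NL_sym := nl_sym' (lib_root hHP)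

theorem nl_two_HP (hHP : Lib_HP) : NL_two := nl_two' hHP (lib_root hHP)

theorem nl_double_HP (hHP : Lib_HP) : NL_double := nl_double' (lib_root hHP)

end Pool.Agent.Helper50K9.Drn
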