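import Pool.Agent.Helper13K9.Drn.H45

/-!
# Two halves: `LL_H1`, `LL_H2`
-/

set_option autoImplicit false

namespace Pool.Agent.Helper50K9.Drn

open Pool.Agent.Helper13K9.Drn

theorem pair_leaf_inj {C D : RT} (h : node {C, leaf} = node {D, leaf}) : C = D := by
  rcases pair_eq.1 (node_inj.1 h) with ⟨h1, _⟩ | ⟨h1, h2⟩
  · exact h1
  · rw [h1, ← h2]

/-- a card of `A`, where `P'` is a branch `A'` and a leaf -/
theorem del_pair_leaf {A A' : RT} (hA : 2 ≤ Multiset.card (ch A)) (hA' : A' ≠ leaf)
    (h : Del leaf (node {A', leaf}) A) : ∃ C, A = node {C, leaf} ∧ Del leaf A' C := by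
  rcases del_pair h with ⟨h1, _⟩ | ⟨_, h1⟩ | ⟨D, h1, h2⟩ | ⟨D, h1, _⟩
  · exact absurd h1 hA'
  · exfalso
    rw [h1] at hA
    simp at hA
  · exact ⟨D, h2, h1⟩
  · exact absurd h1 not_del_leaf

theorem h1_core (hM : MasterH) {A B A' B' : RT} {m : ℕ} (hm : 5 ≤ m) (hA : size A = m)
    (hB : size B = m) (hAB : A ≠ B) (dA : 2 ≤ Multiset.card (ch A))
    (dB : 2 ≤ Multiset.card (ch B)) (h1 : Del leaf A A') (h2 : Del leaf B B') (hne : A' ≠ B')
    (hch : ∀ C E, A = node {C, leaf} → B = node {E, leaf} → Del leaf A' C → Del leaf B' E → False) :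
    LLgood (node (A ::ₘ ch B)) := by
  have s1 := h1.size1
  have s2 := h2.size1
  have hA'l : A' ≠ leaf := by
    rintro rfl
    rw [size_leaf] at s1
    omega
  have hB'l : B' ≠ leaf := by
    rintro rfl
    rw [size_leaf] at s2
    omega
  have u : UI (node (A ::ₘ ch B)) (node (B ::ₘ ch A)) := by
    have := UI.re A (ch B)
    rwa [node_ch] at this
  refine hM _ A' B B' A m (by omega) (by omega) hB (by omega) hA
    (UCard.of_del (Del.deep _ h1)) ⟨_, _, u, Del.deep _ h2, UI.refl _⟩ ?_ ?_ ?_ ?_ ?_ ?_
  · intro h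
    rcases Multiset.cons_eq_cons.1 (node_inj.1 h) with ⟨h3, _⟩ | ⟨_, cs, h3, h4⟩
    · exact hne h3
    · have h5 : size A = size A' + size (node cs) := by
        rw [← node_ch A, h4, size_cons]
      have h6 : node cs = leaf := size_eq_one (by omega)
      have h7 : cs = 0 := node_inj.1 h6
      rw [h4, h7] at dA
      simp at dA
  · intro W V _ _ h
    rcases h with ⟨_, h⟩ | ⟨h, _⟩
    · exact absurd h.symm hAB
    · rw [h]; exact UI.refl _
  · intro W G _ hG _
    have := card_of_del_up hG
    omega
  · intro F V hF _ _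
    have := card_of_del_up hF
    omega
  · intro F G hF _ _
    have := card_of_del_up hF
    omega
  · intro P P' hP hP' _ _ h
    exfalso
    have sP := hP.size1
    have sP' := hP'.size1
    rcases Multiset.cons_eq_cons.1 h with ⟨h3, _⟩ | ⟨_, cs, h3, h4⟩
    · exact hne h3
    · have e1 : P = node {B', leaf} := rest_leaf h3 (by omega)
      have e2 : P' = node {A', leaf} := rest_leaf h4 (by omega)
      rw [e1] at hP
      rw [e2] at hP'
      obtain ⟨C, hC, hC'⟩ := del_pair_leaf dA hA'l hP'
      obtain ⟨E, hE, hE'⟩ := del_pair_leaf dB hB'l hP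
      exact hch C E hC hE hC' hE'

theorem ll_H1 (hM : MasterH) : LL_H1 := by
  intro A B m hm hA hB hAB dA dB
  by_cases hCE : ∃ C E, A = node {C, leaf} ∧ B = node {E, leaf}
  · obtain ⟨C, E, hC, hE⟩ := hCE
    have sC : size C + 2 = m := by rw [← hA, hC, size_pair, size_leaf]
    have sE : size E + 2 = m := by rw [← hB, hE, size_pair, size_leaf]
    have hne : C ≠ E := by
      rintro rfl
      exact hAB (by rw [hC, hE])
    have hCl : C ≠ leaf := by
      rintro rfl
      rw [size_leaf] at sC
      omega
    have hEl : E ≠ leaf := by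
      rintro rfl
      rw [size_leaf] at sE
      omega
    have del1 : ∀ D : RT, Del leaf (node {D, leaf}) (node {D}) := by
      intro D
      have := Del.here (S := leaf) {D}
      rwa [show (leaf ::ₘ {D} : Multiset RT) = {D, leaf} from Multiset.cons_swap _ _ _] at this
    obtain ⟨C', hC'⟩ := del_exists hCl
    obtain ⟨E', hE'⟩ := del_exists hEl
    by_cases hp : IsPt C
    · have hq : ¬ IsPt E := fun h => hne (hp.unique h (by omega))
      refine h1_core hM hm hA hB hAB dA dB (A' := node {C', leaf}) (B' := node {E}) ?_ ?_ ?_ ?_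
      · rw [hC]; exact Del.deep _ hC'
      · rw [hE]; exact del1 E
      · exact fun h => up_ne_pair h.symm
      · intro C₂ E₂ _ h4 _ h6
        have : E = E₂ := pair_leaf_inj (by rw [← hE, h4])
        rw [← this] at h6
        exact hq (PL1 h6)
    · refine h1_core hM hm hA hB hAB dA dB (A' := node {C}) (B' := node {E', leaf}) ?_ ?_ ?_ ?_
      · rw [hC]; exact del1 C
      · rw [hE]; exact Del.deep _ hE'
      · exact up_ne_pair
      · intro C₂ E₂ h3 _ h5 _
        have : C = C₂ := pair_leaf_inj (by rw [← hC, h3])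
        rw [← this] at h5
        exact hp (PL1 h5)
  · have nA : ¬ IsPt A := fun h => by
      have := h.card_le
      omega
    have nB : ¬ IsPt B := fun h => by
      have := h.card_le
      omega
    obtain ⟨A', B', h1, h2, h3⟩ := choose_ne hAB (by omega) nA nB
    exact h1_core hM hm hA hB hAB dA dB h1 h2 h3 fun C E hC hE _ _ => hCE ⟨C, E, hC, hE⟩

theorem h2_core (hM : MasterH) {A B₁ A' : RT} {m : ℕ} (hm : 5 ≤ m) (hA : size A = m)
    (hB : size B₁ + 1 = m) (dA : 2 ≤ Multiset.card (ch A)) (h1 : Del leaf A A')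
    (k1 : Del leaf A B₁ → A' = B₁)
    (k2 : ¬ Del leaf A B₁ → ∀ C, A = node {C, leaf} → IsPt B₁ → A' = node {C})
    (k3 : ¬ Del leaf A B₁ → ∀ C, A = node {C, leaf} → ¬ IsPt B₁ → ∃ C', A' = node {C', leaf})
    (hex : ¬ (A = node {leaf, Pt (m - 2)} ∧ B₁ = Pt (m - 1))) : LLgood (node {A, B₁}) := by
  have s1 := h1.size1
  have hBl : B₁ ≠ leaf := by
    rintro rfl
    rw [size_leaf] at hB
    omega
  have hA'l : A' ≠ leaf := by
    rintro rfl
    rw [size_leaf] at s1
    omega
  obtain ⟨B', h2⟩ := del_exists hBl
  have s2 := h2.size1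
  have hT : (node {A, B₁} : RT) = node (A ::ₘ ch (node {B₁})) := by rw [ch_node]; rfl
  have u : UI (node {A, B₁}) (node (node {B₁} ::ₘ ch A)) := UI.re A {B₁}
  have hnA : ∀ X, A ≠ node {X} := by
    intro X h
    rw [h] at dA
    simp at dA
  -- the exceptional shape
  have hexc : ∀ C, A = node {C, leaf} → IsPt C → IsPt B₁ → False := by
    intro C hC hp hq
    have sC : size C + 2 = m := by rw [← hA, hC, size_pair, size_leaf]
    apply hex
    refine ⟨?_, ?_⟩
    · rw [hC, hp.eq, show size C = m - 2 by omega]
      exact congrArg node (Multiset.cons_swap _ _ _)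
    · rw [hq.eq, show size B₁ = m - 1 by omega]
  refine hM _ A' (node {B₁}) (node {B'}) A m (by omega) (by omega) (by rw [size_up]; omega)
    (by rw [size_up]; omega) hA ?_ ⟨_, _, u, Del.deep _ h2.up, UI.refl _⟩ ?_ ?_ ?_ ?_ ?_ ?_
  · rw [hT]; exact UCard.of_del (Del.deep _ h1)
  · intro h
    have := congrArg Multiset.card (node_inj.1 h)
    rw [Multiset.card_cons, Multiset.card_cons, card_ch_up] at this
    omega
  · intro W V _ _ h
    rcases h with ⟨_, h⟩ | ⟨h, _⟩
    · exact absurd h.symm (hnA _)
    · rw [h, hT]; exact UI.refl _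
  · intro W G _ hG _
    have := card_of_del_up hG
    omega
  · intro F V hF _ h
    rcases h with ⟨_, h⟩ | ⟨h, _⟩
    · exact absurd h.symm (hnA _)
    · rw [h] at hF
      rcases del_up.1 hF with ⟨h3, _⟩ | ⟨X', h3, h4⟩
      · rw [h3, size_leaf] at hA
        omega
      · rw [up_inj.1 h4, k1 (by rw [up_inj.1 h4]; exact h3), up_inj.1 h4, h]
        exact UI.refl _
  · intro F G _ hG _
    have := card_of_del_up hG
    omega
  · intro P P' hP hP' dP _ h
    exfalso
    have sP' := hP'.size1
    rcases del_to_up.1 hP with e | ⟨C', e, _⟩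
    · rw [e, ch_node] at h
      rcases Multiset.cons_eq_cons.1 h with ⟨h3, h4⟩ | ⟨_, cs, h3, h4⟩
      · -- `A' = node {B'}`
        have e2 : P' = node {leaf, B₁} := by rw [← node_ch P', ← h4]
        rw [e2] at hP'
        rcases del_pair hP' with ⟨_, h5⟩ | ⟨h5, _⟩ | ⟨D, h5, _⟩ | ⟨C, h5, h6⟩
        · exact hnA _ h5
        · exact hBl h5
        · exact not_del_leaf h5
        · have h6' : A = node {C, leaf} := by
            rw [h6]; exact congrArg node (Multiset.cons_swap _ _ _)
          have hCB : C = B' := by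
            rw [h3, h6] at h1
            rcases del_pair h1 with ⟨_, h7⟩ | ⟨h7, _⟩ | ⟨D, h7, _⟩ | ⟨D, _, h7⟩
            · exact (up_inj.1 h7).symm
            · exfalso
              have := h5.size1
              rw [h7, size_leaf] at this
              omega
            · exact absurd h7 not_del_leaf
            · exact absurd h7 up_ne_pair
          by_cases hAB : Del leaf A B₁
          · have h8 := k1 hAB
            rw [h3] at h8
            rw [← h8] at h2
            have h9 := PL1 h2
            exact hexc C h6' (by rw [hCB]; exact h9) (by rw [← h8]; exact h9.up)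
          · by_cases hp : IsPt B₁
            · have h9 : IsPt B' := hp.del h2
              exact hexc C h6' (by rw [hCB]; exact h9) hp
            · obtain ⟨C', hC'⟩ := k3 hAB C h6' hp
              rw [h3] at hC'
              exact up_ne_pair hC'
      · -- `node {B'} = B₁`
        have h5 : node {B'} = B₁ ∧ cs = {leaf} := by
          have h6 : (node {B'} : RT) ∈ ({leaf, B₁} : Multiset RT) := by
            rw [h3]; exact Multiset.mem_cons_self _ _
          have h7 : node {B'} = B₁ := by
            simp only [Multiset.insert_eq_cons, Multiset.mem_cons, Multiset.mem_singleton] at h6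
            rcases h6 with h6 | h6
            · exfalso
              have := congrArg size h6
              rw [size_up, size_leaf] at this
              omega
            · exact h6
          refine ⟨h7, ?_⟩
          rw [h7, show ({leaf, B₁} : Multiset RT) = B₁ ::ₘ {leaf} from Multiset.cons_swap _ _ _,
            Multiset.cons_inj_right] at h3
          exact h3.symm
        obtain ⟨h5, h6⟩ := h5
        rw [h6] at h4
        have e2 : P' = node {A', leaf} := by rw [← node_ch P', h4]; rfl
        rw [e2] at hP'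
        obtain ⟨C, hC, hC'⟩ := del_pair_leaf dA hA'l hP'
        rw [← h5] at h2
        have hp : IsPt B₁ := by rw [← h5]; exact (PL1 h2).up
        by_cases hAB : Del leaf A B₁
        · rw [k1 hAB] at hC'
          exact hexc C hC (hp.del hC') hp
        · rw [k2 hAB C hC hp] at hC'
          exact hexc C hC (PL1 hC') hp
    · rw [e] at dP
      simp at dP

theorem ll_H2 (hM : MasterH) : LL_H2 := by
  intro A B₁ m hm hA hB dA
  by_cases hex : A = node {leaf, Pt (m - 2)} ∧ B₁ = Pt (m - 1)
  · exact Or.inr hex
  left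
  have hAl : A ≠ leaf := by
    rintro rfl
    rw [size_leaf] at hA
    omega
  by_cases hAB : Del leaf A B₁
  · exact h2_core hM hm hA hB dA hAB (fun _ => rfl) (fun h => absurd hAB h)
      (fun h => absurd hAB h) hex
  by_cases hC : ∃ C, A = node {C, leaf}
  · obtain ⟨C, hC⟩ := hC
    have sC : size C + 2 = m := by rw [← hA, hC, size_pair, size_leaf]
    have hCl : C ≠ leaf := by
      rintro rfl
      rw [size_leaf] at sC
      omega
    obtain ⟨C', hC'⟩ := del_exists hCl
    by_cases hp : IsPt B₁
    · refine h2_core hM hm hA hB dA (A' := node {C}) ?_ (fun h => absurd h hAB) ?_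
        (fun _ _ _ h => absurd hp h) hex
      · rw [hC]
        have := Del.here (S := leaf) {C}
        rwa [show (leaf ::ₘ {C} : Multiset RT) = {C, leaf} from Multiset.cons_swap _ _ _] at this
      · intro _ D hD _
        rw [pair_leaf_inj (hC.symm.trans hD)]
    · refine h2_core hM hm hA hB dA (A' := node {C', leaf}) ?_ (fun h => absurd h hAB)
        (fun _ _ _ h => absurd h hp) ?_ hex
      · rw [hC]; exact Del.deep _ hC'
      · exact fun _ _ _ _ => ⟨C', rfl⟩
  · obtain ⟨A', hA'⟩ := del_exists hAl
    exact h2_core hM hm hA hB dA hA' (fun h => absurd h hAB)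
      (fun _ C h => absurd ⟨C, h⟩ hC) (fun _ C h => absurd ⟨C, h⟩ hC) hex

end Pool.Agent.Helper50K9.Drn
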