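import Pool.Agent.Helper13K9.Drn.Tasks

/-!
# Families without a good pair of leaves: `NL_sym`, `NL_two`, `NL_double`
-/

set_option autoImplicit false
set_option maxHeartbeats 4000000

namespace Pool.Agent.Helper50K9.Drn

open Pool.Agent.Helper13K9.Drn

theorem size_lt_of_mem {D X : RT} (h : D ∈ ch X) : size D < size X := by
  rw [size_eq X]
  have := Multiset.single_le_sum (s := (ch X).map size) (fun _ _ => Nat.zero_le _) _
    (Multiset.mem_map_of_mem size h)
  omega

theorem rel_map_size {A B : Multiset RT} (h : Multiset.Rel UI A B) : A.map size = B.map size := by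
  induction h with
  | zero => rfl
  | cons h1 _ ih => rw [Multiset.map_cons, Multiset.map_cons, ih, h1.size_eq]

theorem rel_mem_size {A B : Multiset RT} (h : Multiset.Rel UI A B) {s : ℕ}
    (hB : ∀ F ∈ B, size F = s) : ∀ F ∈ A, size F = s := by
  intro F hF
  have h1 : size F ∈ A.map size := Multiset.mem_map_of_mem size hF
  rw [rel_map_size h] at h1
  obtain ⟨G, hG, hG'⟩ := Multiset.mem_map.1 h1
  rw [← hG', hB G hG]

theorem sum_map_const {A : Multiset RT} {s : ℕ} (h : ∀ F ∈ A, size F = s) :
    (A.map size).sum = Multiset.card A * s := by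
  rw [Multiset.map_congr rfl h, Multiset.map_const', Multiset.sum_replicate, smul_eq_mul]

theorem rel_cancel {A B : RT} {M : Multiset RT} (h : Multiset.Rel UI (A ::ₘ M) (B ::ₘ M)) :
    UI A B := by
  have h1 := Multiset.map_mk_eq_map_mk_of_rel h
  rw [Multiset.map_cons, Multiset.map_cons, Multiset.cons_inj_left] at h1
  have h2 := Quot.eqvGen_exact h1
  have h3 : Equivalence UI := ⟨UI.refl, UI.symm, UI.trans⟩
  exact (h3.eqvGen_iff).1 h2

theorem rel_big {U S K : RT} {C : Multiset RT} (h : Multiset.Rel UI (U ::ₘ ch S) (K ::ₘ C))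
    (hs : size S ≤ size K) : UI U K ∧ Multiset.Rel UI (ch S) C := by
  obtain ⟨a, as', h1, h2, h3⟩ := Multiset.rel_cons_right.1 h
  rcases Multiset.cons_eq_cons.1 h3 with ⟨h4, h5⟩ | ⟨_, cs, h5, h6⟩
  · rw [h4, h5]; exact ⟨h1, h2⟩
  · exfalso
    have h7 : a ∈ ch S := by rw [h5]; exact Multiset.mem_cons_self a cs
    have h8 := size_lt_of_mem h7
    have h9 := h1.size_eq
    omega

theorem in_up {K D Y : RT} (h : In K D Y) : ∃ U S, Y = node (U ::ₘ ch S) ∧
    ((S = D ∧ U = K) ∨ (size S < size D ∧ size K < size U)) := by
  induction h with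
  | root K D => exact ⟨K, D, rfl, Or.inl ⟨rfl, rfl⟩⟩
  | @deep K E Y N _ ih =>
    obtain ⟨U, S, h1, h2⟩ := ih
    have hK : size K < size (node (K ::ₘ N)) := by
      rw [size_node, Multiset.map_cons, Multiset.sum_cons]; omega
    have hE : size E < size (node (E ::ₘ N)) := by
      rw [size_node, Multiset.map_cons, Multiset.sum_cons]; omega
    refine ⟨U, S, h1, Or.inr ?_⟩
    rcases h2 with ⟨h2, h3⟩ | ⟨h2, h3⟩
    · rw [h2, h3]; exact ⟨hE, hK⟩
    · exact ⟨by omega, by omega⟩

/-- the two positions are adjacent -/
theorem adj_of_big (hUI : Lib_UI_iff) {Z₁ Z₂ K : RT} {M C : Multiset RT} {s : ℕ}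
    (hZ : UI Z₁ Z₂) (h1 : Multiset.Rel UI (ch Z₁) M) (h2 : Multiset.Rel UI (ch Z₂) (K ::ₘ C))
    (hM : ∀ F ∈ M, size F = s) (hK : size K + s = size Z₁) (hsK : s < size K) :
    ∃ F M₁, Z₁ = node (F ::ₘ M₁) ∧ UI (node M₁) K ∧ Multiset.Rel UI (ch F) C := by
  have h3 := rel_mem_size h1 hM
  rcases (hUI Z₁ Z₂).1 hZ with h4 | ⟨F, M₁, h4, h5⟩
  · exfalso
    rw [← h4] at h2
    obtain ⟨a, as', h5, h6, h7⟩ := Multiset.rel_cons_right.1 h2
    have h8 := h3 a (by rw [h7]; exact Multiset.mem_cons_self a as')
    have h9 := h5.size_eq
    omega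
  · refine ⟨F, M₁, h4, ?_⟩
    obtain ⟨U, S, h6, h7⟩ := in_up h5
    have hF : size F = s := h3 F (by rw [h4, ch_node]; exact Multiset.mem_cons_self F M₁)
    have hS : size S ≤ size K := by
      rcases h7 with ⟨h7, _⟩ | ⟨h7, _⟩
      · rw [h7, hF]; omega
      · omega
    rw [h6, ch_node] at h2
    obtain ⟨h8, h9⟩ := rel_big h2 hS
    rcases h7 with ⟨h7, h7'⟩ | ⟨_, h7'⟩
    · rw [← h7', ← h7]; exact ⟨h8, h9⟩
    · exfalso
      have h10 := h8.size_eq
      have h11 : size Z₁ = size F + size (node M₁) := by
        rw [h4, size_node, size_node, Multiset.map_cons, Multiset.sum_cons]; omega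
      omega

theorem nl_sym (hUI : Lib_UI_iff) (huni : Lib_uni) (hroot : Lib_root) : NL_sym := by
  intro M s D hs hc hM hD hom
  obtain ⟨M', rfl⟩ := Multiset.exists_cons_of_mem hD
  have hM' : ∀ F ∈ M', size F = s := fun F hF => hM F (Multiset.mem_cons_of_mem hF)
  have hDs : size D = s := hM D hD
  rw [Multiset.card_cons] at hc
  have hsM' : size (node M') = 1 + Multiset.card M' * s := by
    rw [size_node, sum_map_const hM']
  have hsM : size (node (D ::ₘ M')) = 1 + (Multiset.card M' + 1) * s := by
    rw [size_node, sum_map_const hM, Multiset.card_cons]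
  have h2s : 2 * s ≤ Multiset.card M' * s := Nat.mul_le_mul_right s (by omega)
  have hmul : (Multiset.card M' + 1) * s = Multiset.card M' * s + s := by ring
  refine ⟨node (D ::ₘ M'), node (node M' ::ₘ ch D), UI.refl _, UI.re D M', ?_, ?_⟩
  · intro F hF E hE
    rw [ch_node] at hF hE
    rw [hM F hF]
    rcases Multiset.mem_cons.1 hE with h | h
    · rw [h]; omega
    · have := size_lt_of_mem h
      omega
  · intro Z₁ Z₂ hZ h1 h2
    rw [ch_node] at h1 h2
    have hZs : size Z₁ = 1 + (Multiset.card M' + 1) * s := by
      rw [size_eq, rel_map_size h1, ← size_node, hsM]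
    obtain ⟨F, M₁, h3, h4, h5⟩ := adj_of_big hUI hZ h1 h2 hM
      (by rw [hsM', hZs]; omega) (by omega)
    rw [h3, ch_node] at h1
    have h1' := rel_mem_size h1 hM
    have h6 : M₁ = M' := by
      apply huni M₁ M' h4
      · intro E hE
        rw [h1' E (Multiset.mem_cons_of_mem hE), h4.size_eq]; omega
      · intro E hE
        rw [hM' E hE]; omega
    rw [h6] at h1 h3
    have h7 := rel_cancel h1
    rw [h3, hroot F D hom h7 h5]
    exact UI.refl _

theorem nl_two (hUI : Lib_UI_iff) (hHP : Lib_HP) (hroot : Lib_root) : NL_two := by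
  intro D hs hom
  have hpair : ({D, D} : Multiset RT) = D ::ₘ {D} := rfl
  have hM : ∀ F ∈ ({D, D} : Multiset RT), size F = size D := by
    intro F hF
    simp only [Multiset.insert_eq_cons, Multiset.mem_cons, Multiset.mem_singleton, or_self] at hF
    rw [hF]
  have h1s : size (node {D}) = 1 + size D := by
    rw [size_node, Multiset.map_singleton, Multiset.sum_singleton]
  have h2s : size (node {D, D}) = 1 + 2 * size D := by
    rw [size_node, hpair, Multiset.map_cons, Multiset.sum_cons, Multiset.map_singleton,
      Multiset.sum_singleton]; omega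
  refine ⟨node {D, D}, node (node {D} ::ₘ ch D), UI.refl _, UI.re D {D}, ?_, ?_⟩
  · intro F hF E hE
    rw [ch_node] at hF hE
    rw [hM F hF]
    rcases Multiset.mem_cons.1 hE with h | h
    · rw [h]; omega
    · have := size_lt_of_mem h
      omega
  · intro Z₁ Z₂ hZ h1 h2
    rw [ch_node] at h1 h2
    have hZs : size Z₁ = 1 + 2 * size D := by
      rw [size_eq, rel_map_size h1, ← size_node, h2s]
    obtain ⟨F, M₁, h3, h4, h5⟩ := adj_of_big hUI hZ h1 h2 hM
      (by rw [h1s, hZs]; omega) (by omega)
    rw [h3, ch_node] at h1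
    have hcard := Multiset.card_eq_card_of_rel h1
    rw [Multiset.card_cons, hpair, Multiset.card_cons, Multiset.card_singleton] at hcard
    obtain ⟨F', hF'⟩ := Multiset.card_eq_one.1 (show Multiset.card M₁ = 1 by omega)
    have hall : ∀ A ∈ F ::ₘ M₁, UI A D := by
      intro A hA
      obtain ⟨B, hB, hAB⟩ := Multiset.exists_mem_of_rel_of_mem h1 hA
      simp only [Multiset.insert_eq_cons, Multiset.mem_cons, Multiset.mem_singleton,
        or_self] at hB
      rw [← hB]; exact hAB
    have hF : UI F D := hall F (Multiset.mem_cons_self _ _)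
    have hF'D : UI F' D := hall F' (by rw [hF']; simp)
    rw [hF'] at h4 h3
    have e1 : F' = D := hHP F' D hF'D h4
    have e2 : F = D := hroot F D hom hF h5
    rw [h3, e1, e2]
    exact UI.refl _

/-- a deletion in a tree with given branches -/
theorem del_cases {S X : RT} {N : Multiset RT} (h : Del S X (node N)) :
    X = node (S ::ₘ N) ∨ ∃ A A' N', N = A' ::ₘ N' ∧ X = node (A ::ₘ N') ∧ Del S A A' := by
  generalize hY : node N = Y at h
  cases h with
  | here M => left; rw [node_inj.1 hY]
  | @deep A A' M h => right; exact ⟨A, A', M, node_inj.1 hY, rfl, h⟩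

theorem del_size_le {S X Y : RT} (h : Del S X Y) : size S < size X := by
  have := h.size_eq
  have := size_pos Y
  omega

theorem cls {S H Q : RT} {M : Multiset RT} (h : Del S H (node (Q ::ₘ M))) :
    H = node (S ::ₘ Q ::ₘ M) ∨
      (∃ A A' cs, M = A' ::ₘ cs ∧ H = node (A ::ₘ Q ::ₘ cs) ∧ Del S A A') ∨
      ∃ A, H = node (A ::ₘ M) ∧ Del S A Q := by
  rcases del_cases h with h1 | ⟨A, A', N', h1, h2, h3⟩
  · exact Or.inl h1
  · rcases Multiset.cons_eq_cons.1 h1 with ⟨h4, h5⟩ | ⟨_, cs, h5, h6⟩
    · right; right
      exact ⟨A, by rw [h2, h5], by rw [h4]; exact h3⟩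
    · right; left
      exact ⟨A, A', cs, h5, by rw [h2, h6], h3⟩

theorem nl_double (huni : Lib_uni) (hbi : Lib_bi) (hunibi : Lib_uni_bi) (hroot : Lib_root)
    (hatt : Lib_attach) : NL_double := by
  intro M s D E hs hc hM hD homD hE homE _ hex
  obtain ⟨M', rfl⟩ := Multiset.exists_cons_of_mem hD
  obtain ⟨C, hC⟩ := Multiset.exists_cons_of_mem hE
  have hM' : ∀ F ∈ M', size F = s := fun F hF => hM F (Multiset.mem_cons_of_mem hF)
  have hDs : size D = s := hM D hD
  rw [Multiset.card_cons] at hc hex
  obtain ⟨k, hk⟩ : ∃ k, Multiset.card M' = k + 1 := ⟨Multiset.card M' - 1, by omega⟩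
  have hDE : D = node (E ::ₘ C) := by rw [← hC, node_ch]
  have hEs : size E < s := by rw [← hDs]; exact size_lt_of_mem hE
  have hE0 := size_pos E
  have hchD : ∀ F ∈ ch D, size F = size E := fun F hF => homD F hF E hE
  have hCs : size (node C) + size E = s := by
    rw [← hDs, hDE, size_node, size_node, Multiset.map_cons, Multiset.sum_cons]; omega
  have hC0 := size_pos (node C)
  obtain ⟨ks, hks⟩ : ∃ ks, ks = k * s := ⟨_, rfl⟩
  have hks0 : ks = 0 ∨ s ≤ ks := by
    rcases Nat.eq_zero_or_pos k with h | h
    · left; rw [hks, h, zero_mul]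
    · right; rw [hks]; exact Nat.le_mul_of_pos_left s h
  have hsM' : size (node M') = 1 + ks + s := by
    rw [size_node, sum_map_const hM', hk, hks]; ring
  have hsM : size (node (D ::ₘ M')) = 1 + ks + 2 * s := by
    rw [size_node, sum_map_const hM, Multiset.card_cons, hk, hks]; ring
  have hsG : size (node (node (D ::ₘ M') ::ₘ M')) = 2 + 2 * ks + 3 * s := by
    have h := hsM'
    rw [size_node] at h
    rw [size_node, Multiset.map_cons, Multiset.sum_cons, hsM]; omega
  have hsQ : size (node (node C ::ₘ M')) + size E = 1 + ks + 2 * s := by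
    have h := hsM'
    rw [size_node] at h
    rw [size_node, Multiset.map_cons, Multiset.sum_cons]; omega
  have hsGC : size (node (node (node (D ::ₘ M') ::ₘ M') ::ₘ C)) + size E =
      2 + 2 * ks + 4 * s := by
    have h := hCs
    rw [size_node] at h
    rw [size_node, Multiset.map_cons, Multiset.sum_cons, hsG]; omega
  have u1 : UI (node (node (D ::ₘ M') ::ₘ D ::ₘ M'))
      (node (node (node (D ::ₘ M') ::ₘ M') ::ₘ ch D)) := by
    rw [Multiset.cons_swap]; exact UI.re _ _
  have u2 : UI (node (node (node (D ::ₘ M') ::ₘ M') ::ₘ ch D))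
      (node (node (node (node (D ::ₘ M') ::ₘ M') ::ₘ C) ::ₘ ch E)) := by
    rw [hC, Multiset.cons_swap]; exact UI.re _ _
  have uK1 : UI (node (node (D ::ₘ M') ::ₘ M')) (node (node M' ::ₘ D ::ₘ M')) := by
    have := UI.re (node (D ::ₘ M')) M'
    rwa [ch_node] at this
  have uK2 : UI (node (node (node (D ::ₘ M') ::ₘ M') ::ₘ C))
      (node (node (node C ::ₘ M') ::ₘ D ::ₘ M')) := by
    refine (UI.re _ _).trans ?_
    rw [ch_node, Multiset.cons_swap]
    have := UI.re (node (D ::ₘ M')) (node C ::ₘ M')
    rwa [ch_node] at this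
  refine ⟨node (node (node (D ::ₘ M') ::ₘ M') ::ₘ ch D),
    node (node (node (node (D ::ₘ M') ::ₘ M') ::ₘ C) ::ₘ ch E), u1, u1.trans u2, ?_, ?_⟩
  · intro F hF F' hF'
    rw [ch_node] at hF hF'
    rcases Multiset.mem_cons.1 hF with h | h <;> rcases Multiset.mem_cons.1 hF' with h' | h'
    · rw [h, h']; omega
    · have := size_lt_of_mem h'
      rw [h]; omega
    · have := hchD F h
      rw [h']; omega
    · have := size_lt_of_mem h'
      have := hchD F h
      omega
  · intro Z₁ Z₂ hZ h1 h2
    rw [ch_node] at h1 h2
    obtain ⟨a, as', ha, has, hZ1⟩ := Multiset.rel_cons_right.1 h1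
    obtain ⟨b, bs', hb, hbs, hZ2⟩ := Multiset.rel_cons_right.1 h2
    obtain ⟨Dx, hDx⟩ : ∃ Dx, Dx = node as' := ⟨_, rfl⟩
    obtain ⟨Dy, hDy⟩ : ∃ Dy, Dy = node bs' := ⟨_, rfl⟩
    have hDx' : ch Dx = as' := by rw [hDx, ch_node]
    have hDy' : ch Dy = bs' := by rw [hDy, ch_node]
    rw [← hDx'] at has hZ1
    rw [← hDy'] at hbs hZ2
    have sx : size Dx = s := by
      rw [size_eq, rel_map_size has, ← size_eq, hDs]
    have sy : size Dy = size E := by
      rw [size_eq, rel_map_size hbs, ← size_eq]
    have hchx : ∀ F ∈ ch Dx, size F = size E := rel_mem_size has hchD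
    obtain ⟨H₁, d1, v1⟩ := hatt a _ Dx (ha.trans uK1)
    obtain ⟨H₂, d2, v2⟩ := hatt b _ Dy (hb.trans uK2)
    rw [← hZ1, node_ch] at v1
    rw [← hZ2, node_ch] at v2
    have v : UI H₁ H₂ := (v1.symm.trans hZ).trans v2
    have sK1 : size (node (node M' ::ₘ D ::ₘ M')) = 2 + 2 * ks + 3 * s := by
      rw [← uK1.size_eq, hsG]
    have sK2 : size (node (node (node C ::ₘ M') ::ₘ D ::ₘ M')) + size E = 2 + 2 * ks + 4 * s := by
      rw [← uK2.size_eq, hsGC]
    have sH1 : size H₁ = 2 + 2 * ks + 4 * s := by rw [d1.size_eq]; omega
    have sH2 : size H₂ = 2 + 2 * ks + 4 * s := by rw [d2.size_eq]; omega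
    refine v1.trans ?_
    have half : ∀ A : RT, size (node (A ::ₘ D ::ₘ M')) = 2 + 2 * ks + 4 * s →
        size A = size (node (D ::ₘ M')) := by
      intro A hA
      have h := hsM
      rw [size_node] at h
      rw [size_node, Multiset.map_cons, Multiset.sum_cons] at hA
      rw [size_node]; omega
    rcases cls d1 with c1 | ⟨A₁, A₁', cs₁, e1, c1, f1⟩ | ⟨A₁, c1, f1⟩
    · -- (1a)
      have bal : ∀ F ∈ Dx ::ₘ node M' ::ₘ D ::ₘ M',
          2 * size F < size (node (Dx ::ₘ node M' ::ₘ D ::ₘ M')) := by
        intro F hF
        rw [← c1, sH1]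
        simp only [Multiset.mem_cons] at hF
        rcases hF with h | h | h | h
        · rw [h]; omega
        · rw [h]; omega
        · rw [h]; omega
        · rw [hM' F h]; omega
      rcases cls d2 with c2 | ⟨A₂, A₂', cs₂, e2, c2, f2⟩ | ⟨A₂, c2, f2⟩
      · exfalso
        have bal2 : ∀ F ∈ Dy ::ₘ node (node C ::ₘ M') ::ₘ D ::ₘ M',
            2 * size F < size (node (Dy ::ₘ node (node C ::ₘ M') ::ₘ D ::ₘ M')) := by
          intro F hF
          rw [← c2, sH2]
          simp only [Multiset.mem_cons] at hF
          rcases hF with h | h | h | h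
          · rw [h]; omega
          · rw [h]; omega
          · rw [h]; omega
          · rw [hM' F h]; omega
        rw [c1, c2] at v
        have h := huni _ _ v bal bal2
        have h3 : Dy ∈ Dx ::ₘ node M' ::ₘ D ::ₘ M' := by rw [h]; exact Multiset.mem_cons_self _ _
        simp only [Multiset.mem_cons] at h3
        rcases h3 with h3 | h3 | h3 | h3
        · rw [h3] at sy; omega
        · rw [h3] at sy; omega
        · rw [h3] at sy; omega
        · rw [hM' Dy h3] at sy; omega
      · exfalso
        have hcs : ∀ F ∈ cs₂, size F = s := fun F hF => hM F (by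
          rw [e2]; exact Multiset.mem_cons_of_mem hF)
        have hA2 : size A₂ = size E + s := by
          rw [f2.size_eq, sy, hM A₂' (by rw [e2]; exact Multiset.mem_cons_self _ _)]
        have bal2 : ∀ F ∈ A₂ ::ₘ node (node C ::ₘ M') ::ₘ cs₂,
            2 * size F < size (node (A₂ ::ₘ node (node C ::ₘ M') ::ₘ cs₂)) := by
          intro F hF
          rw [← c2, sH2]
          simp only [Multiset.mem_cons] at hF
          rcases hF with h | h | h
          · rw [h]; omega
          · rw [h]; omega
          · rw [hcs F h]; omega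
        rw [c1, c2] at v
        have h := congrArg Multiset.card (huni _ _ v bal bal2)
        have h' := congrArg Multiset.card e2
        simp only [Multiset.card_cons] at h h'
        omega
      · exfalso
        rw [c1, c2] at v
        refine hunibi _ A₂ (node (D ::ₘ M')) ?_ bal (half A₂ (by rw [← c2, sH2]))
        rw [ch_node]; exact v
    · -- (1b)
      have hcs1 : ∀ F ∈ cs₁, size F = s := fun F hF => hM F (by
        rw [e1]; exact Multiset.mem_cons_of_mem hF)
      have hA1' : size A₁' = s := hM A₁' (by rw [e1]; exact Multiset.mem_cons_self _ _)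
      have hA1 : size A₁ = 2 * s := by rw [f1.size_eq, sx, hA1']; omega
      have bal : ∀ F ∈ A₁ ::ₘ node M' ::ₘ cs₁,
          2 * size F < size (node (A₁ ::ₘ node M' ::ₘ cs₁)) := by
        intro F hF
        rw [← c1, sH1]
        simp only [Multiset.mem_cons] at hF
        rcases hF with h | h | h
        · rw [h]; omega
        · rw [h]; omega
        · rw [hcs1 F h]; omega
      have h'1 := congrArg Multiset.card e1
      simp only [Multiset.card_cons] at h'1
      rcases cls d2 with c2 | ⟨A₂, A₂', cs₂, e2, c2, f2⟩ | ⟨A₂, c2, f2⟩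
      · exfalso
        have bal2 : ∀ F ∈ Dy ::ₘ node (node C ::ₘ M') ::ₘ D ::ₘ M',
            2 * size F < size (node (Dy ::ₘ node (node C ::ₘ M') ::ₘ D ::ₘ M')) := by
          intro F hF
          rw [← c2, sH2]
          simp only [Multiset.mem_cons] at hF
          rcases hF with h | h | h | h
          · rw [h]; omega
          · rw [h]; omega
          · rw [h]; omega
          · rw [hM' F h]; omega
        rw [c1, c2] at v
        have h := congrArg Multiset.card (huni _ _ v bal bal2)
        simp only [Multiset.card_cons] at h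
        omega
      · exfalso
        have hcs : ∀ F ∈ cs₂, size F = s := fun F hF => hM F (by
          rw [e2]; exact Multiset.mem_cons_of_mem hF)
        have hA2 : size A₂ = size E + s := by
          rw [f2.size_eq, sy, hM A₂' (by rw [e2]; exact Multiset.mem_cons_self _ _)]
        have bal2 : ∀ F ∈ A₂ ::ₘ node (node C ::ₘ M') ::ₘ cs₂,
            2 * size F < size (node (A₂ ::ₘ node (node C ::ₘ M') ::ₘ cs₂)) := by
          intro F hF
          rw [← c2, sH2]
          simp only [Multiset.mem_cons] at hF
          rcases hF with h | h | h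
          · rw [h]; omega
          · rw [h]; omega
          · rw [hcs F h]; omega
        rw [c1, c2] at v
        have h := huni _ _ v bal bal2
        -- sizes
        have h3 : A₂ ∈ A₁ ::ₘ node M' ::ₘ cs₁ := by rw [h]; exact Multiset.mem_cons_self _ _
        have h4 : ks = 0 ∧ size E = 1 := by
          simp only [Multiset.mem_cons] at h3
          rcases h3 with h3 | h3 | h3
          · rw [h3] at hA2; omega
          · rw [h3] at hA2; omega
          · rw [hcs1 A₂ h3] at hA2; omega
        obtain ⟨h4, h5⟩ := h4
        have hk0 : k = 0 := by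
          rcases Nat.eq_zero_or_pos k with h | h
          · exact h
          · have := Nat.le_mul_of_pos_left s h
            omega
        have h6 : A₁ ∈ A₂ ::ₘ node (node C ::ₘ M') ::ₘ cs₂ := by
          rw [← h]; exact Multiset.mem_cons_self _ _
        have h7 : A₁ = node (node C ::ₘ M') := by
          simp only [Multiset.mem_cons] at h6
          rcases h6 with h6 | h6 | h6
          · rw [h6] at hA1; omega
          · exact h6
          · rw [hcs A₁ h6] at hA1; omega
        obtain ⟨D₁, hD₁⟩ := Multiset.card_eq_one.1 (show Multiset.card M' = 1 by omega)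
        have hD1s : size D₁ = s := hM' D₁ (by rw [hD₁]; simp)
        rw [h7, hD₁] at f1
        rw [← node_ch A₁'] at f1
        -- A₁' = node {node C}, Dx = D₁
        have h8 : Dx = D₁ ∧ A₁' = node {node C} := by
          rcases del_cases f1 with g | ⟨T, T', N', g1, g2, g3⟩
          · have g' := node_inj.1 g
            rcases Multiset.cons_eq_cons.1 g' with ⟨g1, _⟩ | ⟨_, cs, g1, g2⟩
            · rw [← g1] at sx; omega
            · have g3 : Multiset.card cs = 0 := by
                have := congrArg Multiset.card g1
                rw [Multiset.card_singleton, Multiset.card_cons] at this; omega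
              rw [Multiset.card_eq_zero.1 g3] at g1 g2
              refine ⟨?_, ?_⟩
              · have := Multiset.singleton_inj.1 (by simpa using g1)
                exact this.symm
              · rw [← node_ch A₁', g2]; rfl
          · exfalso
            have g4 : T ∈ ({node C, D₁} : Multiset RT) := by
              have := node_inj.1 g2
              rw [show ({node C, D₁} : Multiset RT) = node C ::ₘ {D₁} from rfl, this]
              exact Multiset.mem_cons_self _ _
            have g5 := del_size_le g3
            simp only [Multiset.insert_eq_cons, Multiset.mem_cons, Multiset.mem_singleton] at g4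
            rcases g4 with g4 | g4
            · rw [g4] at g5; omega
            · rw [g4] at g5; omega
        obtain ⟨h8, h9⟩ := h8
        have h10 : A₁' ∈ D ::ₘ M' := by rw [e1]; exact Multiset.mem_cons_self _ _
        have h11 : size (node C) = 1 := by
          rw [hD₁] at h10
          simp only [Multiset.mem_cons, Multiset.mem_singleton] at h10
          have hm : node C ∈ ch A₁' := by rw [h9, ch_node]; simp
          rcases h10 with h10 | h10
          · rw [← h5]; exact hchD _ (by rw [← h10]; exact hm)
          · rw [← h5]; exact hchx _ (by rw [h8, ← h10]; exact hm)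
        exact hex ⟨by omega, by omega⟩
      · exfalso
        rw [c1, c2] at v
        refine hunibi _ A₂ (node (D ::ₘ M')) ?_ bal (half A₂ (by rw [← c2, sH2]))
        rw [ch_node]; exact v
    · -- (1c)
      have s1 := half A₁ (by rw [← c1, sH1])
      rcases cls d2 with c2 | ⟨A₂, A₂', cs₂, e2, c2, f2⟩ | ⟨A₂, c2, f2⟩
      · exfalso
        have bal2 : ∀ F ∈ Dy ::ₘ node (node C ::ₘ M') ::ₘ D ::ₘ M',
            2 * size F < size (node (Dy ::ₘ node (node C ::ₘ M') ::ₘ D ::ₘ M')) := by
          intro F hF
          rw [← c2, sH2]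
          simp only [Multiset.mem_cons] at hF
          rcases hF with h | h | h | h
          · rw [h]; omega
          · rw [h]; omega
          · rw [h]; omega
          · rw [hM' F h]; omega
        rw [c1, c2] at v
        refine hunibi _ A₁ (node (D ::ₘ M')) ?_ bal2 s1
        rw [ch_node]; exact v.symm
      · exfalso
        have hcs : ∀ F ∈ cs₂, size F = s := fun F hF => hM F (by
          rw [e2]; exact Multiset.mem_cons_of_mem hF)
        have hA2 : size A₂ = size E + s := by
          rw [f2.size_eq, sy, hM A₂' (by rw [e2]; exact Multiset.mem_cons_self _ _)]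
        have bal2 : ∀ F ∈ A₂ ::ₘ node (node C ::ₘ M') ::ₘ cs₂,
            2 * size F < size (node (A₂ ::ₘ node (node C ::ₘ M') ::ₘ cs₂)) := by
          intro F hF
          rw [← c2, sH2]
          simp only [Multiset.mem_cons] at hF
          rcases hF with h | h | h
          · rw [h]; omega
          · rw [h]; omega
          · rw [hcs F h]; omega
        rw [c1, c2] at v
        refine hunibi _ A₁ (node (D ::ₘ M')) ?_ bal2 s1
        rw [ch_node]; exact v.symm
      · have s2 := half A₂ (by rw [← c2, sH2])
        rw [c1, c2] at v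
        have hA : A₁ = A₂ := by
          rcases hbi A₁ (node (D ::ₘ M')) A₂ (node (D ::ₘ M')) (by rw [ch_node]; exact v) s1 s2
            with ⟨h, _⟩ | ⟨h, h'⟩
          · exact h
          · rw [h, ← h']
        rw [← hA] at f2
        have key : A₁ = node (Dx ::ₘ M') ∧ Del Dy Dx (node C) := by
          rcases del_cases f1 with g | ⟨T, T', N', g1, g2, g3⟩
          · refine ⟨g, ?_⟩
            rcases cls f2 with c | ⟨A, A', cs, e, c, f⟩ | ⟨A, c, f⟩
            · exfalso
              have := congrArg Multiset.card (node_inj.1 (g.symm.trans c))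
              simp only [Multiset.card_cons] at this
              omega
            · exfalso
              have h3 : A ∈ Dx ::ₘ M' := by
                rw [node_inj.1 (g.symm.trans c)]; exact Multiset.mem_cons_self _ _
              have h4 : size A = s := by
                rcases Multiset.mem_cons.1 h3 with h3 | h3
                · rw [h3, sx]
                · exact hM' A h3
              have h5 : size A = size E + s := by
                rw [f.size_eq, sy, hM' A' (by rw [e]; exact Multiset.mem_cons_self _ _)]
              omega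
            · have h3 := node_inj.1 (g.symm.trans c)
              rw [Multiset.cons_inj_left] at h3
              rw [h3]; exact f
          · exfalso
            have h3 := congrArg Multiset.card g1
            rw [Multiset.card_cons] at h3
            rcases cls f2 with c | ⟨A, A', cs, e, c, f⟩ | ⟨A, c, f⟩
            · have := congrArg Multiset.card (node_inj.1 (g2.symm.trans c))
              simp only [Multiset.card_cons] at this
              omega
            · have := congrArg Multiset.card (node_inj.1 (g2.symm.trans c))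
              have h4 := congrArg Multiset.card e
              simp only [Multiset.card_cons] at this h4
              omega
            · have := congrArg Multiset.card (node_inj.1 (g2.symm.trans c))
              simp only [Multiset.card_cons] at this
              omega
        obtain ⟨k1, k2⟩ := key
        have k3 : Dx = node (Dy ::ₘ C) := by
          rcases del_cases k2 with g | ⟨T, T', N', g1, g2, g3⟩
          · exact g
          · exfalso
            have h3 := hchx T (by rw [g2, ch_node]; exact Multiset.mem_cons_self _ _)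
            have h4 := del_size_le g3
            omega
        have k4 : UI Dy E := by
          rw [k3, ch_node, hC] at has
          exact rel_cancel has
        have k5 : Dy = E := hroot Dy E homE k4 hbs
        rw [c1, k1, k3, k5, ← hDE]
        exact UI.refl _

end Pool.Agent.Helper50K9.Drn
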