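import Pool.Agent.Helper13K9.Drn.Lib
import Pool.Agent.Helper50K9.Drn.NLA

/-!
# `Lib_root` from `Lib_HP`
-/

set_option autoImplicit false

namespace Pool.Agent.Helper50K9.Drn

open Pool.Agent.Helper13K9.Drn

theorem bal_of_const {X : RT} {s : ℕ} (h : ∀ F ∈ ch X, size F = s)
    (hc : 2 ≤ Multiset.card (ch X)) : Bal X := by
  intro D hD
  rw [h D hD, size_eq X, sum_map_const h]
  have := Nat.mul_le_mul_right s hc
  omega

theorem lib_root (hHP : Lib_HP) : Lib_root := by
  intro X Y hY h hr
  have hc := Multiset.card_eq_card_of_rel hr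
  rcases Nat.lt_or_ge (Multiset.card (ch Y)) 2 with h2 | h2
  · rcases Nat.eq_zero_or_pos (Multiset.card (ch Y)) with h3 | h3
    · rw [← node_ch X, ← node_ch Y, Multiset.card_eq_zero.1 h3,
        Multiset.card_eq_zero.1 (hc.trans h3)]
    · obtain ⟨B, hB⟩ := Multiset.card_eq_one.1 (show Multiset.card (ch Y) = 1 by omega)
      obtain ⟨A, hA⟩ := Multiset.card_eq_one.1 (show Multiset.card (ch X) = 1 by omega)
      rw [hA, hB] at hr
      have h4 : UI A B := by
        obtain ⟨C, hC, hAC⟩ := Multiset.exists_mem_of_rel_of_mem hr (Multiset.mem_singleton_self A)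
        rw [Multiset.mem_singleton.1 hC] at hAC
        exact hAC
      rw [← node_ch X, ← node_ch Y, hA, hB] at h ⊢
      rw [hHP A B h4 h]
  · obtain ⟨B, hB⟩ := Multiset.card_pos_iff_exists_mem.1 (show 0 < Multiset.card (ch Y) by omega)
    have hYs : ∀ F ∈ ch Y, size F = size B := fun F hF => hY F hF B hB
    have hXs := rel_mem_size hr hYs
    exact Bal.unique (bal_of_const hXs (by omega)) (bal_of_const hYs h2) h

end Pool.Agent.Helper50K9.Drn
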